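import Pool.Agent.Helper20.IIC.Stmts

/-! # IIC module DOM: decoupling -/

namespace IIC

open Filter Topology Set
open scoped BigOperators

universe u v

theorem dom_fkw_pos {V : Type u} {E : Type v} (ends : E → Sym2 V) {β : ℝ} (hβ : 0 ≤ β)
    (T : Finset E) : 0 ≤ fkw ends β T := by
  have h1 : 0 ≤ Real.exp (2 * β) - 1 := by
    have := Real.add_one_le_exp (2 * β)
    linarith
  unfold fkw
  positivity

theorem dom_fkZ {V : Type u} {E : Type v} [Fintype E] (ends : E → Sym2 V) {β : ℝ} (hβ : 0 ≤ β) :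
    0 < ∑ T : Finset E, fkw ends β T := by
  refine lt_of_lt_of_le ?_ (Finset.single_le_sum (f := fun T => fkw ends β T)
    (fun T _ => dom_fkw_pos ends hβ T) (Finset.mem_univ (∅ : Finset E)))
  unfold fkw
  simp

variable {d : ℕ}

theorem dom_wW_nonneg {β : ℝ} (hβ : 0 ≤ β) (Λ T : Finset (Ed d)) : 0 ≤ wW β Λ T := by
  have h1 : 0 ≤ Real.exp (2 * β) - 1 := by
    have := Real.add_one_le_exp (2 * β)
    linarith
  unfold wW
  positivity

theorem dom_Z {β : ℝ} (hβ : 0 ≤ β) (Λ : Finset (Ed d)) :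
    0 < ∑ T ∈ Λ.powerset, wW β Λ T := by
  refine lt_of_lt_of_le ?_ (Finset.single_le_sum (f := fun T => wW β Λ T)
    (fun T _ => dom_wW_nonneg hβ Λ T) (Finset.mem_powerset.2 (Finset.empty_subset Λ)))
  unfold wW
  simp

theorem dom_exw_inj {Λ T T' : Finset (Ed d)} (hT : T ⊆ Λ) (hT' : T' ⊆ Λ)
    (h : exw Λ T = exw Λ T') : T = T' := by
  classical
  ext e
  by_cases he : e ∈ Λ
  · have h1 := congrFun h e
    simp only [exw, ext, if_pos he, decide_eq_decide] at h1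
    exact h1
  · exact ⟨fun h1 => absurd (hT h1) he, fun h1 => absurd (hT' h1) he⟩

theorem dom_qs_subset {Λ : Finset (Ed d)} (T : Finset {e // e ∈ Λ}) : qs T ⊆ Λ := by
  intro e he
  unfold qs at he
  rw [Finset.mem_map] at he
  obtain ⟨a, -, ha⟩ := he
  rw [← ha]
  exact a.2

theorem dom_qs_inj {Λ : Finset (Ed d)} {T T' : Finset {e // e ∈ Λ}} (h : qs T = qs T') :
    T = T' := Finset.map_injective _ h

/-- The weights of the wired measure and of the quotient graph are proportional. -/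
theorem dom_prop (hB : ST_BR) {β : ℝ} (hβ : 0 ≤ β) (Λ : Finset (Ed d)) :
    ∃ c : ℝ, 0 < c ∧ ∀ T : Finset {e // e ∈ Λ}, wW β Λ (qs T) = c * fkw (qe Λ) β T := by
  classical
  obtain ⟨-, -, h⟩ := hB d Λ
  refine ⟨(∑ T ∈ Λ.powerset, wW β Λ T) / ∑ T : Finset {e // e ∈ Λ}, fkw (qe Λ) β T,
    div_pos (dom_Z hβ Λ) (dom_fkZ _ hβ), fun T => ?_⟩
  have h1 := h β {exw Λ (qs T)}
  have h2 : ∑ S ∈ Λ.powerset, ({exw Λ (qs T)} : Set (Cfg d)).indicator (fun _ => wW β Λ S)
      (exw Λ S) = wW β Λ (qs T) := by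
    rw [Finset.sum_eq_single_of_mem (qs T) (Finset.mem_powerset.2 (dom_qs_subset T))]
    · rw [Set.indicator_of_mem (Set.mem_singleton _)]
    · intro S hS hne
      rw [Set.indicator_of_notMem]
      intro h3
      exact hne (dom_exw_inj (Finset.mem_powerset.1 hS) (dom_qs_subset T)
        (Set.mem_singleton_iff.1 h3))
  have h3 : ∑ S : Finset {e // e ∈ Λ}, ({S | exw Λ (qs S) ∈ ({exw Λ (qs T)} : Set (Cfg d))} :
      Set (Finset {e // e ∈ Λ})).indicator (fkw (qe Λ) β) S = fkw (qe Λ) β T := by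
    rw [Finset.sum_eq_single_of_mem T (Finset.mem_univ _)]
    · rw [Set.indicator_of_mem]
      exact Set.mem_singleton _
    · intro S _ hne
      rw [Set.indicator_of_notMem]
      intro h3
      exact hne (dom_qs_inj (dom_exw_inj (dom_qs_subset S) (dom_qs_subset T)
        (Set.mem_singleton_iff.1 h3)))
  unfold PW fkP at h1
  rw [h2, h3] at h1
  have hz1 := dom_Z hβ Λ
  have hz2 := dom_fkZ (qe Λ) hβ
  rw [div_eq_div_iff hz1.ne' hz2.ne'] at h1
  rw [div_mul_eq_mul_div, eq_div_iff hz2.ne']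
  linarith

/-- Supermodularity of the number of clusters of the wired configurations. -/
theorem dom_ncl (hS : ST_SUP) (hB : ST_BR) (Λ X Y : Finset (Ed d)) (hX : X ⊆ Λ) (hY : Y ⊆ Λ) :
    (2 : ℝ) ^ ncl le (op (exw Λ X)) * 2 ^ ncl le (op (exw Λ Y)) ≤
      2 ^ ncl le (op (exw Λ (X ∩ Y))) * 2 ^ ncl le (op (exw Λ (X ∪ Y))) := by
  classical
  have hβ : 0 ≤ Real.log 2 / 2 := by
    have := Real.log_nonneg (by norm_num : (1 : ℝ) ≤ 2)
    linarith
  have ha : Real.exp (2 * (Real.log 2 / 2)) - 1 = 1 := by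
    rw [mul_div_cancel₀ _ (by norm_num : (2 : ℝ) ≠ 0), Real.exp_log (by norm_num)]
    norm_num
  have hw : ∀ T : Finset (Ed d), wW (Real.log 2 / 2) Λ T = 2 ^ ncl le (op (exw Λ T)) := by
    intro T
    unfold wW
    rw [ha, one_pow, one_mul]
  obtain ⟨c, hc, h⟩ := dom_prop hB hβ Λ
  have hf : ∀ T : Finset {e // e ∈ Λ}, fkw (qe Λ) (Real.log 2 / 2) T =
      2 ^ ncl (qe Λ) (T : Set {e // e ∈ Λ}) := by
    intro T
    unfold fkw
    rw [ha, one_pow, one_mul]
  have hq : ∀ T : Finset (Ed d), T ⊆ Λ → qs (T.subtype (fun e => e ∈ Λ)) = T := by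
    intro T hT
    unfold qs
    rw [Finset.subtype_map, Finset.filter_true_of_mem hT]
  have hfin := (hB d Λ).1
  have hsup := hS (QV Λ) {e // e ∈ Λ} (qe Λ) ((X.subtype (fun e => e ∈ Λ) :
    Finset {e // e ∈ Λ}) : Set {e // e ∈ Λ}) ((Y.subtype (fun e => e ∈ Λ) :
    Finset {e // e ∈ Λ}) : Set {e // e ∈ Λ})
  rw [← Finset.coe_union, ← Finset.coe_inter] at hsup
  have key : ∀ T : Finset (Ed d), T ⊆ Λ → (2 : ℝ) ^ ncl le (op (exw Λ T)) =
      c * 2 ^ ncl (qe Λ) ((T.subtype (fun e => e ∈ Λ) : Finset {e // e ∈ Λ}) :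
        Set {e // e ∈ Λ}) := by
    intro T hT
    rw [← hw, ← hf, ← h, hq T hT]
  have hi : (X ∩ Y).subtype (fun e => e ∈ Λ) =
      X.subtype (fun e => e ∈ Λ) ∩ Y.subtype (fun e => e ∈ Λ) := by
    ext e
    simp [Finset.mem_subtype]
  have hu : (X ∪ Y).subtype (fun e => e ∈ Λ) =
      X.subtype (fun e => e ∈ Λ) ∪ Y.subtype (fun e => e ∈ Λ) := by
    ext e
    simp [Finset.mem_subtype]
  rw [key X hX, key Y hY, key (X ∩ Y) (Finset.inter_subset_left.trans hX),
    key (X ∪ Y) (Finset.union_subset hX hY), hi, hu]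
  have h1 : (2 : ℝ) ^ (ncl (qe Λ) ((X.subtype (fun e => e ∈ Λ) : Finset {e // e ∈ Λ}) :
      Set {e // e ∈ Λ}) + ncl (qe Λ) ((Y.subtype (fun e => e ∈ Λ) : Finset {e // e ∈ Λ}) :
      Set {e // e ∈ Λ})) ≤ 2 ^ (ncl (qe Λ) ((X.subtype (fun e => e ∈ Λ) ∪
      Y.subtype (fun e => e ∈ Λ) : Finset {e // e ∈ Λ}) : Set {e // e ∈ Λ}) +
      ncl (qe Λ) ((X.subtype (fun e => e ∈ Λ) ∩
      Y.subtype (fun e => e ∈ Λ) : Finset {e // e ∈ Λ}) : Set {e // e ∈ Λ})) :=
    pow_le_pow_right₀ (by norm_num) hsup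
  rw [pow_add, pow_add] at h1
  have hc2 : 0 ≤ c * c := by positivity
  nlinarith [mul_le_mul_of_nonneg_left h1 hc2]

theorem dom_split (Λ₁ Λ₂ : Finset (Ed d)) (hd : Disjoint Λ₁ Λ₂) [DecidableEq (Ed d)]
    (F : Finset (Ed d) → ℝ) :
    ∑ T ∈ (Λ₁ ∪ Λ₂).powerset, F T = ∑ η ∈ Λ₂.powerset, ∑ T ∈ Λ₁.powerset, F (T ∪ η) := by
  rw [← Finset.sum_product']
  refine Finset.sum_nbij' (fun T => (T ∩ Λ₂, T ∩ Λ₁)) (fun p => p.2 ∪ p.1) ?_ ?_ ?_ ?_ ?_
  · intro T _
    simp [Finset.mem_product, Finset.mem_powerset]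
  · intro p hp
    rw [Finset.mem_product, Finset.mem_powerset, Finset.mem_powerset] at hp
    rw [Finset.mem_powerset]
    exact Finset.union_subset_union hp.2 hp.1
  · intro T hT
    rw [Finset.mem_powerset] at hT
    change T ∩ Λ₁ ∪ T ∩ Λ₂ = T
    rw [← Finset.inter_union_distrib_left, Finset.inter_eq_left.2 hT]
  · intro p hp
    rw [Finset.mem_product, Finset.mem_powerset, Finset.mem_powerset] at hp
    have h1 : (p.2 ∪ p.1) ∩ Λ₂ = p.1 := by
      rw [Finset.union_inter_distrib_right, Finset.inter_eq_left.2 hp.1,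
        Finset.disjoint_iff_inter_eq_empty.1 (Finset.disjoint_of_subset_left hp.2 hd),
        Finset.empty_union]
    have h2 : (p.2 ∪ p.1) ∩ Λ₁ = p.2 := by
      rw [Finset.union_inter_distrib_right, Finset.inter_eq_left.2 hp.2,
        Finset.disjoint_iff_inter_eq_empty.1 (Finset.disjoint_of_subset_left hp.1 hd.symm),
        Finset.union_empty]
    change ((p.2 ∪ p.1) ∩ Λ₂, (p.2 ∪ p.1) ∩ Λ₁) = p
    rw [h1, h2]
  · intro T hT
    rw [Finset.mem_powerset] at hT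
    change F T = F (T ∩ Λ₁ ∪ T ∩ Λ₂)
    rw [← Finset.inter_union_distrib_left, Finset.inter_eq_left.2 hT]

theorem dom_ind_le {A : Set (Cfg d)} (hA : IsUpperSet A) {ω ω' : Cfg d} (h : ω ≤ ω') :
    A.indicator (fun _ => (1 : ℝ)) ω ≤ A.indicator (fun _ => (1 : ℝ)) ω' := by
  classical
  rw [Set.indicator_apply, Set.indicator_apply]
  by_cases h1 : ω ∈ A
  · rw [if_pos h1, if_pos (hA h h1)]
  · rw [if_neg h1]
    split_ifs
    · exact zero_le_one
    · exact le_rfl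

theorem dom_exw_le {Λ T T' : Finset (Ed d)} (h : T ⊆ T') : exw Λ T ≤ exw Λ T' := by
  classical
  intro e
  simp only [exw, ext]
  by_cases he : e ∈ Λ
  · rw [if_pos he, if_pos he]
    by_cases h1 : e ∈ T
    · simp [h1, h h1]
    · simp [h1]
  · rw [if_neg he, if_neg he]

theorem dom_PW_nonneg {β : ℝ} (hβ : 0 ≤ β) (Λ : Finset (Ed d)) (A : Set (Cfg d)) :
    0 ≤ PW β Λ A := by
  refine div_nonneg (Finset.sum_nonneg fun T _ => ?_) (dom_Z hβ Λ).le
  exact Set.indicator_nonneg (fun _ _ => dom_wW_nonneg hβ Λ T) _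

/-- Module DOM. -/
theorem st_DOM (hM : ST_MON) (hS : ST_SUP) (hB : ST_BR) : ST_DOM := by
  classical
  intro d β hβ Λ₁ Λ₂ Λ hd h1 h2 A B hA hBu
  have ha : 0 ≤ Real.exp (2 * β) - 1 := by
    have := Real.add_one_le_exp (2 * β)
    linarith
  set a : ℝ := Real.exp (2 * β) - 1 with hadef
  refine (hM d β hβ (Λ₁ ∪ Λ₂) Λ (Finset.union_subset h1 h2) (A ∩ B) (hA.inter hBu)).trans ?_
  -- the event B'
  set B' : Set (Cfg d) := {ω | (fun e => if e ∈ Λ₂ then ω e else true) ∈ B} with hB'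
  have hB'u : IsUpperSet B' := by
    intro ω ω' hle hω
    refine hBu ?_ hω
    intro e
    by_cases he : e ∈ Λ₂
    · simp only [if_pos he]; exact hle e
    · simp only [if_neg he]; exact le_rfl
  have hB'2 : PW β Λ₂ B' = PW β Λ₂ B := by
    unfold PW
    congr 1
    refine Finset.sum_congr rfl fun T hT => ?_
    have h3 : (fun e => if e ∈ Λ₂ then exw Λ₂ T e else true) = exw Λ₂ T := by
      funext e
      by_cases he : e ∈ Λ₂
      · rw [if_pos he]
      · rw [if_neg he]; simp only [exw, ext, if_neg he]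
    have h4 : exw Λ₂ T ∈ B' ↔ exw Λ₂ T ∈ B := by
      rw [hB', Set.mem_setOf_eq, h3]
    rw [Set.indicator_apply, Set.indicator_apply]
    simp only [h4]
  have hB'3 := hM d β hβ Λ₂ (Λ₁ ∪ Λ₂) Finset.subset_union_right B' hB'u
  rw [hB'2] at hB'3
  refine le_trans ?_ (mul_le_mul_of_nonneg_left hB'3 (dom_PW_nonneg hβ Λ₁ A))
  -- the functions
  set f : Finset (Ed d) → ℝ := fun T => A.indicator (fun _ => (1 : ℝ)) (exw Λ₁ T) with hf
  set g : Finset (Ed d) → ℝ := fun η => B.indicator (fun _ => (1 : ℝ)) (exw Λ₂ η) with hg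
  have hf0 : ∀ T, 0 ≤ f T := fun T => Set.indicator_nonneg (fun _ _ => zero_le_one) _
  have hg0 : ∀ T, 0 ≤ g T := fun T => Set.indicator_nonneg (fun _ _ => zero_le_one) _
  set m : Finset (Ed d) → Finset (Ed d) → ℝ := fun η T =>
    a ^ T.card * 2 ^ ncl le (op (exw (Λ₁ ∪ Λ₂) (T ∪ η))) with hm
  have hm0 : ∀ η T, 0 ≤ m η T := fun η T => by
    simp only [hm]; positivity
  have hcard : ∀ T ∈ Λ₁.powerset, ∀ η ∈ Λ₂.powerset, (T ∪ η).card = T.card + η.card := by
    intro T hT η hη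
    rw [Finset.mem_powerset] at hT hη
    exact Finset.card_union_of_disjoint
      (Finset.disjoint_of_subset_left hT (Finset.disjoint_of_subset_right hη hd))
  have hw : ∀ T ∈ Λ₁.powerset, ∀ η ∈ Λ₂.powerset,
      wW β (Λ₁ ∪ Λ₂) (T ∪ η) = a ^ η.card * m η T := by
    intro T hT η hη
    unfold wW
    rw [hcard T hT η hη, pow_add, ← hadef]
    simp only [hm]
    ring
  -- the restriction to the edges open on Λ₂
  have hres : ∀ T ∈ Λ₁.powerset, m Λ₂ T = wW β Λ₁ T := by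
    intro T hT
    rw [Finset.mem_powerset] at hT
    have h3 : exw (Λ₁ ∪ Λ₂) (T ∪ Λ₂) = exw Λ₁ T := by
      funext e
      simp only [exw, ext]
      by_cases he1 : e ∈ Λ₁
      · have he2 : e ∉ Λ₂ := fun h => Finset.disjoint_left.1 hd he1 h
        rw [if_pos he1, if_pos (Finset.mem_union_left _ he1)]
        simp [he2]
      · rw [if_neg he1]
        by_cases he2 : e ∈ Λ₂
        · rw [if_pos (Finset.mem_union_right _ he2)]
          simp [he2]
        · rw [if_neg (by simp [he1, he2])]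
    simp only [hm]
    unfold wW
    rw [h3]
  -- Holley
  have hhol : ∀ η ∈ Λ₂.powerset, ∑ T ∈ Λ₁.powerset, m η T * f T ≤
      (∑ T ∈ Λ₁.powerset, m η T) * PW β Λ₁ A := by
    intro η hη
    rw [Finset.mem_powerset] at hη
    have h3 := Finset.four_functions_theorem Λ₁ (f₁ := fun T => m η T * f T)
      (f₂ := fun T => m Λ₂ T) (f₃ := fun T => m η T) (f₄ := fun T => m Λ₂ T * f T)
      (fun T => mul_nonneg (hm0 _ _) (hf0 _)) (fun T => hm0 _ _) (fun T => hm0 _ _)
      (fun T => mul_nonneg (hm0 _ _) (hf0 _))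
      (by
        intro S hSs T hTs
        have h4 := dom_ncl hS hB (Λ₁ ∪ Λ₂) (S ∪ η) (T ∪ Λ₂)
          (Finset.union_subset_union hSs hη)
          (Finset.union_subset_union hTs (Finset.Subset.refl _))
        have h5 : (S ∪ η) ∩ (T ∪ Λ₂) = (S ∩ T) ∪ η := by
          ext e
          simp only [Finset.mem_inter, Finset.mem_union]
          constructor
          · rintro ⟨h6 | h6, h7 | h7⟩
            · exact Or.inl ⟨h6, h7⟩
            · exact absurd h7 (Finset.disjoint_left.1 hd (hSs h6))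
            · exact Or.inr h6
            · exact Or.inr h6
          · rintro (h6 | h6)
            · exact ⟨Or.inl h6.1, Or.inl h6.2⟩
            · exact ⟨Or.inr h6, Or.inr (hη h6)⟩
        have h6 : (S ∪ η) ∪ (T ∪ Λ₂) = (S ∪ T) ∪ Λ₂ := by
          ext e
          simp only [Finset.mem_union]
          constructor
          · rintro ((h6 | h6) | (h6 | h6))
            · exact Or.inl (Or.inl h6)
            · exact Or.inr (hη h6)
            · exact Or.inl (Or.inr h6)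
            · exact Or.inr h6
          · rintro ((h6 | h6) | h6)
            · exact Or.inl (Or.inl h6)
            · exact Or.inr (Or.inl h6)
            · exact Or.inr (Or.inr h6)
        rw [h5, h6] at h4
        have h7 : f S ≤ f (S ∪ T) := dom_ind_le hA (dom_exw_le Finset.subset_union_left)
        have h8 : a ^ S.card * a ^ T.card = a ^ (S ∩ T).card * a ^ (S ∪ T).card := by
          rw [← pow_add, ← pow_add, Finset.card_inter_add_card_union]
        simp only [hm]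
        calc a ^ S.card * 2 ^ ncl le (op (exw (Λ₁ ∪ Λ₂) (S ∪ η))) * f S *
              (a ^ T.card * 2 ^ ncl le (op (exw (Λ₁ ∪ Λ₂) (T ∪ Λ₂))))
            = (a ^ S.card * a ^ T.card) * (2 ^ ncl le (op (exw (Λ₁ ∪ Λ₂) (S ∪ η))) *
                2 ^ ncl le (op (exw (Λ₁ ∪ Λ₂) (T ∪ Λ₂)))) * f S := by ring
          _ ≤ (a ^ S.card * a ^ T.card) * (2 ^ ncl le (op (exw (Λ₁ ∪ Λ₂) (S ∩ T ∪ η))) *
                2 ^ ncl le (op (exw (Λ₁ ∪ Λ₂) (S ∪ T ∪ Λ₂)))) * f (S ∪ T) := by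
              refine mul_le_mul (mul_le_mul_of_nonneg_left h4 (by positivity)) h7 (hf0 _) ?_
              positivity
          _ = a ^ (S ∩ T).card * 2 ^ ncl le (op (exw (Λ₁ ∪ Λ₂) (S ∩ T ∪ η))) *
              (a ^ (S ∪ T).card * 2 ^ ncl le (op (exw (Λ₁ ∪ Λ₂) (S ∪ T ∪ Λ₂))) *
                f (S ∪ T)) := by
              rw [h8]; ring)
      (Finset.Subset.refl Λ₁.powerset) (Finset.Subset.refl Λ₁.powerset)
    rw [Finset.powerset_infs_powerset_self, Finset.powerset_sups_powerset_self] at h3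
    have h4 : ∑ T ∈ Λ₁.powerset, m Λ₂ T = ∑ T ∈ Λ₁.powerset, wW β Λ₁ T :=
      Finset.sum_congr rfl hres
    have h5 : ∑ T ∈ Λ₁.powerset, m Λ₂ T * f T =
        ∑ T ∈ Λ₁.powerset, A.indicator (fun _ => wW β Λ₁ T) (exw Λ₁ T) := by
      refine Finset.sum_congr rfl fun T hT => ?_
      rw [hres T hT]
      simp only [hf, Set.indicator_apply]
      split_ifs
      · rw [mul_one]
      · rw [mul_zero]
    rw [h4, h5] at h3
    unfold PW
    rw [← mul_div_assoc, le_div_iff₀ (dom_Z hβ Λ₁)]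
    exact h3
  -- the comparison of the numerators
  have hZ := dom_Z hβ (Λ₁ ∪ Λ₂)
  have hnum : ∑ T ∈ (Λ₁ ∪ Λ₂).powerset, (A ∩ B).indicator (fun _ => wW β (Λ₁ ∪ Λ₂) T)
      (exw (Λ₁ ∪ Λ₂) T) ≤ PW β Λ₁ A * ∑ T ∈ (Λ₁ ∪ Λ₂).powerset,
        B'.indicator (fun _ => wW β (Λ₁ ∪ Λ₂) T) (exw (Λ₁ ∪ Λ₂) T) := by
    rw [dom_split Λ₁ Λ₂ hd, dom_split Λ₁ Λ₂ hd, Finset.mul_sum]
    refine Finset.sum_le_sum fun η hη => ?_
    have hηs := Finset.mem_powerset.1 hη
    have hBg : ∀ T ∈ Λ₁.powerset, B'.indicator (fun _ => wW β (Λ₁ ∪ Λ₂) (T ∪ η))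
        (exw (Λ₁ ∪ Λ₂) (T ∪ η)) = a ^ η.card * g η * m η T := by
      intro T hT
      have hTs := Finset.mem_powerset.1 hT
      have h3 : (fun e => if e ∈ Λ₂ then exw (Λ₁ ∪ Λ₂) (T ∪ η) e else true) = exw Λ₂ η := by
        funext e
        simp only [exw, ext]
        by_cases he : e ∈ Λ₂
        · have he1 : e ∉ T := fun h => Finset.disjoint_left.1 hd (hTs h) he
          rw [if_pos he, if_pos he, if_pos (Finset.mem_union_right _ he)]
          simp [he1]
        · rw [if_neg he, if_neg he]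
      have h4 : exw (Λ₁ ∪ Λ₂) (T ∪ η) ∈ B' ↔ exw Λ₂ η ∈ B := by
        rw [hB', Set.mem_setOf_eq, h3]
      rw [Set.indicator_apply]
      simp only [h4, hg, Set.indicator_apply]
      rw [hw T hT η hη]
      split_ifs
      · ring
      · ring
    have hAf : ∀ T ∈ Λ₁.powerset, (A ∩ B).indicator (fun _ => wW β (Λ₁ ∪ Λ₂) (T ∪ η))
        (exw (Λ₁ ∪ Λ₂) (T ∪ η)) ≤ a ^ η.card * g η * (m η T * f T) := by
      intro T hT
      have hTs := Finset.mem_powerset.1 hT
      have h3 : exw (Λ₁ ∪ Λ₂) (T ∪ η) ≤ exw Λ₁ T := by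
        intro e
        simp only [exw, ext]
        by_cases he1 : e ∈ Λ₁
        · have he2 : e ∉ η := fun h => Finset.disjoint_left.1 hd he1 (hηs h)
          rw [if_pos he1, if_pos (Finset.mem_union_left _ he1)]
          simp [he2]
        · rw [if_neg he1]
          exact Bool.le_true _
      have h4 : exw (Λ₁ ∪ Λ₂) (T ∪ η) ≤ exw Λ₂ η := by
        intro e
        simp only [exw, ext]
        by_cases he1 : e ∈ Λ₂
        · have he2 : e ∉ T := fun h => Finset.disjoint_left.1 hd (hTs h) he1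
          rw [if_pos he1, if_pos (Finset.mem_union_right _ he1)]
          simp [he2]
        · rw [if_neg he1]
          exact Bool.le_true _
      by_cases h5 : exw (Λ₁ ∪ Λ₂) (T ∪ η) ∈ A ∩ B
      · rw [Set.indicator_of_mem h5, hw T hT η hη]
        have h6 : f T = 1 := by
          simp only [hf]
          rw [Set.indicator_of_mem (hA h3 h5.1)]
        have h7 : g η = 1 := by
          simp only [hg]
          rw [Set.indicator_of_mem (hBu h4 h5.2)]
        rw [h6, h7, mul_one, mul_one]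
      · rw [Set.indicator_of_notMem h5]
        have := hf0 T
        have := hg0 η
        have := hm0 η T
        positivity
    calc ∑ T ∈ Λ₁.powerset, (A ∩ B).indicator (fun _ => wW β (Λ₁ ∪ Λ₂) (T ∪ η))
          (exw (Λ₁ ∪ Λ₂) (T ∪ η))
        ≤ ∑ T ∈ Λ₁.powerset, a ^ η.card * g η * (m η T * f T) := Finset.sum_le_sum hAf
      _ = a ^ η.card * g η * ∑ T ∈ Λ₁.powerset, m η T * f T := by rw [Finset.mul_sum]
      _ ≤ a ^ η.card * g η * ((∑ T ∈ Λ₁.powerset, m η T) * PW β Λ₁ A) := by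
          have := hg0 η
          exact mul_le_mul_of_nonneg_left (hhol η hη) (by positivity)
      _ = PW β Λ₁ A * ∑ T ∈ Λ₁.powerset, B'.indicator (fun _ => wW β (Λ₁ ∪ Λ₂) (T ∪ η))
          (exw (Λ₁ ∪ Λ₂) (T ∪ η)) := by
          rw [Finset.sum_congr rfl hBg, ← Finset.mul_sum]
          ring
  calc PW β (Λ₁ ∪ Λ₂) (A ∩ B) ≤ (PW β Λ₁ A * ∑ T ∈ (Λ₁ ∪ Λ₂).powerset,
        B'.indicator (fun _ => wW β (Λ₁ ∪ Λ₂) T) (exw (Λ₁ ∪ Λ₂) T)) /
        ∑ T ∈ (Λ₁ ∪ Λ₂).powerset, wW β (Λ₁ ∪ Λ₂) T := by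
        unfold PW
        exact div_le_div_of_nonneg_right hnum hZ.le
    _ = PW β Λ₁ A * PW β (Λ₁ ∪ Λ₂) B' := by
        rw [mul_div_assoc]
        rfl

end IIC
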